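import Mathlib
import Pool.Agent.Q46.PrymE

/-! # Injectivity of the tropical Abel-Prym map over 2-connected graphs -/

namespace Pool.Agent.Results.MP_10cdc7_ag.AbelPrymInjective

open Q46.Prym

/-- Let `G` be a (finite, possibly with loops and multiple edges) metric graph `Γ~`, connected as
a topological space, with a free involution `i`, and let `i.Base = Γ` be the quotient. If `Γ`
is 2-connected (the complement of every point is connected) and all fibres of the Abel-Prym map
`psi i : p ↦ [p - ιp]` are finite, then `psi i` is injective. The hypothesis that `Γ~` is not
hyperelliptic is not needed. -/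
theorem result (G : MGraph) (i : FreeInv G) (hconn : ConnectedSpace (Pt G))
    (h2 : ∀ x : i.Base, IsPreconnected ({x}ᶜ : Set i.Base))
    (hfin : ∀ c : Pic G, (psi i ⁻¹' {c}).Finite) :
    Function.Injective (psi i) :=
  psi_injective i h2 hfin

end Pool.Agent.Results.MP_10cdc7_ag.AbelPrymInjective
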